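import Pool.Agent.Q173.KS.Stm

/-!
# Project KS, job HIT: the number of the points of `B` moved into `A`
-/

set_option autoImplicit false

namespace Pool.Agent.Q223.KS

open Pool.Agent.Q173.KS Finset

/-- Newton interpolation -/
theorem newton (φ : ℕ → ℝ) (m : ℕ) :
    ∃ ψ : ℕ → ℝ, ∀ x ≤ m, φ x = ∑ i ∈ range (m + 1), ψ i * (x.choose i : ℝ) := by
  induction m with
  | zero =>
    refine ⟨fun _ => φ 0, fun x hx => ?_⟩
    obtain rfl : x = 0 := by omega
    simp
  | succ m ih =>
    obtain ⟨ψ, hψ⟩ := ih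
    refine ⟨Function.update ψ (m + 1)
      (φ (m + 1) - ∑ i ∈ range (m + 1), ψ i * ((m + 1).choose i : ℝ)), fun x hx => ?_⟩
    have h1 : ∀ y : ℕ, ∑ i ∈ range (m + 1), Function.update ψ (m + 1)
        (φ (m + 1) - ∑ i ∈ range (m + 1), ψ i * ((m + 1).choose i : ℝ)) i * (y.choose i : ℝ)
        = ∑ i ∈ range (m + 1), ψ i * (y.choose i : ℝ) := by
      intro y
      refine Finset.sum_congr rfl fun i hi => ?_
      have h2 : i ≠ m + 1 := by
        have := Finset.mem_range.1 hi
        omega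
      rw [Function.update_of_ne h2]
    rw [Finset.sum_range_succ, h1, Function.update_self]
    rcases Nat.lt_or_ge x (m + 1) with hx1 | hx1
    · rw [Nat.choose_eq_zero_of_lt hx1, ← hψ x (by omega)]
      simp
    · obtain rfl : x = m + 1 := by omega
      rw [Nat.choose_self]
      simp

set_option linter.unusedSectionVars false

variable {I : Type} [Fintype I] [DecidableEq I]

/-- the indicator of `σ T ⊆ A` -/
noncomputable def ind (A T : Finset I) (σ : Equiv.Perm I) : ℝ := if ∀ t ∈ T, σ t ∈ A then 1 else 0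

theorem card_eq (A B : Finset I) (σ : Equiv.Perm I) :
    (A ∩ B.map σ.toEmbedding).card = (B.filter fun t => σ t ∈ A).card := by
  rw [← Finset.card_map (s := B.filter fun t => σ t ∈ A) σ.toEmbedding]
  congr 1
  ext x
  simp only [Finset.mem_inter, Finset.mem_map, Finset.mem_filter, Equiv.coe_toEmbedding]
  constructor
  · rintro ⟨h1, y, hy, rfl⟩
    exact ⟨y, ⟨hy, h1⟩, rfl⟩
  · rintro ⟨y, ⟨hy, h1⟩, rfl⟩
    exact ⟨h1, y, hy, rfl⟩

theorem choose_eq (A B : Finset I) (σ : Equiv.Perm I) (i : ℕ) :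
    ((A ∩ B.map σ.toEmbedding).card.choose i : ℝ) = ∑ T ∈ B.powersetCard i, ind A T σ := by
  rw [card_eq, ← Finset.card_powersetCard]
  unfold ind
  rw [Finset.sum_boole]
  congr 2
  ext T
  simp only [Finset.mem_powersetCard, Finset.mem_filter, Finset.subset_iff]
  constructor
  · rintro ⟨h1, h2⟩
    exact ⟨⟨fun x hx => (h1 hx).1, h2⟩, fun x hx => (h1 hx).2⟩
  · rintro ⟨⟨h1, h2⟩, h3⟩
    exact ⟨fun x hx => ⟨h1 hx, h3 x hx⟩, h2⟩

theorem ind_const {j : ℕ} {ℓ : List (Op I)} (hU : Uni j ℓ) (A T T' : Finset I)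
    (hT : T.card ≤ j) (h : T'.card = T.card) :
    EP ℓ (ind A T') = EP ℓ (ind A T) := by
  have key : ∀ S : Finset I, ∀ hS : S.card = T.card,
      ind A S = fun σ : Equiv.Perm I => (fun y : Fin T.card → I =>
        if ∀ k, y k ∈ A then (1 : ℝ) else 0)
          (fun k => σ (((S.equivFinOfCardEq hS).symm k : S) : I)) := by
    intro S hS
    funext σ
    unfold ind
    simp only
    refine if_congr ?_ rfl rfl
    constructor
    · intro h1 k
      exact h1 _ (Subtype.prop _)
    · intro h1 t ht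
      have h2 := h1 (S.equivFinOfCardEq hS ⟨t, ht⟩)
      rwa [Equiv.symm_apply_apply] at h2
  have inj : ∀ S : Finset I, ∀ hS : S.card = T.card,
      Function.Injective (fun k : Fin T.card => (((S.equivFinOfCardEq hS).symm k : S) : I)) :=
    fun S hS => Subtype.val_injective.comp (S.equivFinOfCardEq hS).symm.injective
  rw [key T' h, key T rfl]
  exact hU T.card hT (fun y : Fin T.card → I => if ∀ k, y k ∈ A then (1 : ℝ) else 0) _ _
    (inj T' h) (inj T rfl)

theorem ind_val {j : ℕ} {ℓ : List (Op I)} (hU : Uni j ℓ) (A T : Finset I) (hT : T.card ≤ j) :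
    EP ℓ (ind A T) = (A.card.choose T.card : ℝ) / ((Fintype.card I).choose T.card : ℝ) := by
  have h1 : ∀ σ : Equiv.Perm I, (A.card.choose T.card : ℝ) =
      ∑ S ∈ (univ : Finset I).powersetCard T.card, ind A S σ := by
    intro σ
    rw [← choose_eq]
    congr 3
    rw [Finset.map_univ_equiv, Finset.inter_univ]
  have h2 : EP ℓ (fun σ => ∑ S ∈ (univ : Finset I).powersetCard T.card, ind A S σ) =
      (A.card.choose T.card : ℝ) := by
    rw [← EP_const ℓ (A.card.choose T.card : ℝ)]
    congr 1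
    funext σ
    exact (h1 σ).symm
  rw [EP_sum] at h2
  have h3 : ∀ S ∈ (univ : Finset I).powersetCard T.card, EP ℓ (fun σ => ind A S σ) =
      EP ℓ (ind A T) := fun S hS => ind_const hU A T S hT (Finset.mem_powersetCard.1 hS).2
  rw [Finset.sum_congr rfl h3, Finset.sum_const, Finset.card_powersetCard, nsmul_eq_mul,
    Finset.card_univ] at h2
  have h4 : ((Fintype.card I).choose T.card : ℝ) ≠ 0 := by
    have := Nat.choose_pos (Finset.card_le_univ T)
    positivity
  rw [eq_div_iff h4, ← h2]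
  ring

theorem ep_val {j : ℕ} {ℓ : List (Op I)} (hU : Uni j ℓ) (φ ψ : ℕ → ℝ) (m : ℕ)
    (hψ : ∀ x ≤ m, φ x = ∑ i ∈ range (m + 1), ψ i * (x.choose i : ℝ)) (A B : Finset I)
    (hm : m = min A.card B.card) (hj : m ≤ j) :
    EP ℓ (fun σ => φ ((A ∩ B.map σ.toEmbedding).card)) =
      ∑ i ∈ range (m + 1), ψ i * ((B.card.choose i : ℝ) *
        ((A.card.choose i : ℝ) / ((Fintype.card I).choose i : ℝ))) := by
  have h1 : (fun σ : Equiv.Perm I => φ ((A ∩ B.map σ.toEmbedding).card)) =
      fun σ => ∑ i ∈ range (m + 1), ψ i * ∑ T ∈ B.powersetCard i, ind A T σ := by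
    funext σ
    have h2 : (A ∩ B.map σ.toEmbedding).card ≤ m := by
      rw [hm]
      refine le_min (Finset.card_le_card Finset.inter_subset_left) ?_
      refine (Finset.card_le_card Finset.inter_subset_right).trans ?_
      rw [Finset.card_map]
    rw [hψ _ h2]
    refine Finset.sum_congr rfl fun i _ => ?_
    rw [choose_eq]
  rw [h1, EP_sum]
  refine Finset.sum_congr rfl fun i hi => ?_
  have hi2 : i ≤ j := by
    have := Finset.mem_range.1 hi
    omega
  rw [EP_mul, EP_sum]
  congr 1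
  have h3 : ∀ T ∈ B.powersetCard i, EP ℓ (fun σ => ind A T σ) =
      (A.card.choose i : ℝ) / ((Fintype.card I).choose i : ℝ) := by
    intro T hT
    have h4 := (Finset.mem_powersetCard.1 hT).2
    have h5 := ind_val hU A T (by omega)
    rw [h4] at h5
    exact h5
  rw [Finset.sum_congr rfl h3, Finset.sum_const, Finset.card_powersetCard, nsmul_eq_mul]

theorem hit : S_HIT := by
  intro I _ _ j ℓ hU φ A B A' B' hA hB hm
  obtain ⟨ψ, hψ⟩ := newton φ (min A.card B.card)
  rw [ep_val hU φ ψ _ hψ A B rfl hm, ep_val hU φ ψ _ hψ A' B' (by rw [hA, hB]) hm, hA, hB]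

end Pool.Agent.Q223.KS
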