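import Pool.Agent.Q264.KS.Stm3

/-!
# Project KS, lemma K4A
-/

set_option autoImplicit false

namespace Pool.Agent.Q223.KS.A

open Module Filter Topology Pool.Agent.Q264.KS

universe u

section
variable {X : Type u} [NormedAddCommGroup X] [NormedSpace ℝ X]

theorem D_le (x y : X) : D x y ≤ ‖y‖ := by
  have h1 : ‖D x‖ ≤ 1 := by
    have := norm_fderiv_le_of_lipschitz ℝ (f := fun z : X => ‖z‖) (x₀ := x) lipschitzWith_one_norm
    simpa [D] using this
  calc D x y ≤ ‖D x y‖ := le_abs_self _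
    _ ≤ ‖D x‖ * ‖y‖ := (D x).le_opNorm y
    _ ≤ 1 * ‖y‖ := mul_le_mul_of_nonneg_right h1 (norm_nonneg _)
    _ = ‖y‖ := one_mul _

theorem D_self {x : X} (h : Sm x) : D x x = ‖x‖ := by
  unfold D
  exact DifferentiableAt.fderiv_norm_self h

/-- functionals that norm a point of `O` take the value `1` at `z` -/
theorem at_z (z : X) (O : Set X) (hz : ‖z‖ = 1) (hO : IsOpen O)
    (hray : ∀ x ∈ O, ∀ t : ℝ, 0 ≤ t → ‖x + t • z‖ = ‖x‖ + t) (g : X →L[ℝ] ℝ)
    (hg : ∀ y, g y ≤ ‖y‖) (y₀ : X) (hy₀ : y₀ ∈ O) (hgy : g y₀ = ‖y₀‖) : g z = 1 := by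
  apply le_antisymm
  · rw [← hz]
    exact hg z
  · have h1 : Tendsto (fun t : ℝ => y₀ - t • z) (𝓝 0) (𝓝 y₀) := by
      have : Continuous (fun t : ℝ => y₀ - t • z) := by fun_prop
      have h2 := this.tendsto 0
      simpa using h2
    have h2 : ∀ᶠ t : ℝ in 𝓝[>] 0, y₀ - t • z ∈ O :=
      (h1.mono_left nhdsWithin_le_nhds).eventually (hO.mem_nhds hy₀)
    obtain ⟨t, htO, ht⟩ := (h2.and self_mem_nhdsWithin).exists
    have ht0 : 0 < t := ht
    have h3 := hray _ htO t ht0.le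
    rw [sub_add_cancel] at h3
    have h4 := hg (y₀ - t • z)
    rw [map_sub, map_smul, smul_eq_mul, hgy] at h4
    have h5 : t * 1 ≤ t * g z := by linarith
    exact le_of_mul_le_mul_left h5 ht0

end

theorem t_K4A : S_K4A.{u} := by
  intro hS2 hBJD hUNI hHB X _ _ _ h3 hP z O hz hO hray x₁ x₂ hx₁ hx₂ hs₁ hs₂ hd₁ hd₂ hne a b ha hb hmem
  have hz₁ : D x₁ z = 1 := at_z z O hz hO hray (D x₁) (D_le x₁) x₁ hx₁ (D_self hs₁)
  have hz₂ : D x₂ z = 1 := at_z z O hz hO hray (D x₂) (D_le x₂) x₂ hx₂ (D_self hs₂)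
  -- the dual vectors
  obtain ⟨e, he⟩ : ∃ e : X, D x₁ e ≠ D x₂ e := by
    by_contra hcon
    push Not at hcon
    exact hne (ContinuousLinearMap.ext hcon)
  have hk : D x₁ e - D x₂ e ≠ 0 := sub_ne_zero.2 he
  obtain ⟨q, hq₁, hq₂⟩ : ∃ q : X, D x₁ q = 1 ∧ D x₂ q = 0 := by
    refine ⟨(D x₁ e - D x₂ e)⁻¹ • (e - D x₂ e • z), ?_, ?_⟩
    · rw [map_smul, map_sub, map_smul, hz₁, smul_eq_mul, smul_eq_mul, mul_one, inv_mul_cancel₀ hk]
    · rw [map_smul, map_sub, map_smul, hz₂, smul_eq_mul, smul_eq_mul, mul_one, sub_self, mul_zero]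
  obtain ⟨p, hp⟩ : ∃ p : X, p = z - q := ⟨_, rfl⟩
  have hp₁ : D x₁ p = 0 := by rw [hp, map_sub, hz₁, hq₁, sub_self]
  have hp₂ : D x₂ p = 1 := by rw [hp, map_sub, hz₂, hq₂, sub_zero]
  -- the common kernel
  obtain ⟨v, hv₁, hv₂, hv0⟩ : ∃ v : X, D x₁ v = 0 ∧ D x₂ v = 0 ∧ v ≠ 0 := by
    have h1 : LinearMap.ker ((D x₁ : X →ₗ[ℝ] ℝ).prod (D x₂ : X →ₗ[ℝ] ℝ)) ≠ ⊥ := by
      apply LinearMap.ker_ne_bot_of_finrank_lt
      rw [h3, Module.finrank_prod, Module.finrank_self]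
      norm_num
    obtain ⟨v, hv, hv0⟩ := Submodule.exists_mem_ne_zero_of_ne_bot h1
    rw [LinearMap.mem_ker, LinearMap.prod_apply] at hv
    have h2 := congrArg Prod.fst hv
    have h4 := congrArg Prod.snd hv
    exact ⟨v, by simpa using h2, by simpa using h4, hv0⟩
  have hBJ := hS2 hBJD hUNI X h3 hP x₁ x₂ v hs₁ hs₂ hd₁ hd₂ hv₁ hv₂ hv0 hne a b ha hb
  obtain ⟨g, hg, hgh, hgv⟩ := hHB X (a • x₁ + b • x₂) v hBJ
  -- g is a combination
  have hli : LinearIndependent ℝ ![q, p, v] := by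
    rw [Fintype.linearIndependent_iff]
    intro c hc
    rw [Fin.sum_univ_three] at hc
    have hc' : c 0 • q + c 1 • p + c 2 • v = 0 := hc
    have e1 := congrArg (D x₁) hc'
    have e2 := congrArg (D x₂) hc'
    rw [map_add, map_add, map_smul, map_smul, map_smul, hq₁, hp₁, hv₁, map_zero] at e1
    rw [map_add, map_add, map_smul, map_smul, map_smul, hq₂, hp₂, hv₂, map_zero] at e2
    have e3 : c 0 = 0 := by simpa using e1
    have e4 : c 1 = 0 := by simpa using e2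
    rw [e3, e4, zero_smul, zero_smul, zero_add, zero_add] at hc'
    have e5 : c 2 = 0 := (smul_eq_zero.1 hc').resolve_right hv0
    intro i
    fin_cases i
    · exact e3
    · exact e4
    · exact e5
  have hspan : ∀ y : X, ∃ α β γ : ℝ, y = α • q + β • p + γ • v := by
    intro y
    have hcard : Fintype.card (Fin 3) = finrank ℝ X := by rw [h3]; rfl
    have hb := (basisOfLinearIndependentOfCardEqFinrank hli hcard).sum_repr y
    rw [Fin.sum_univ_three] at hb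
    simp only [coe_basisOfLinearIndependentOfCardEqFinrank] at hb
    exact ⟨_, _, _, hb.symm⟩
  have hgcomb : ∀ y : X, g y = g q * D x₁ y + g p * D x₂ y := by
    intro y
    obtain ⟨α, β, γ, rfl⟩ := hspan y
    simp only [map_add, map_smul, smul_eq_mul, hgv, hq₁, hq₂, hp₁, hp₂, hv₁, hv₂]
    ring
  have hgz : g z = 1 := at_z z O hz hO hray g hg _ hmem hgh
  have hsum : g q + g p = 1 := by
    have := hgcomb z
    rw [hgz, hz₁, hz₂] at this
    linarith
  have hα : 0 ≤ g q := by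
    by_contra hcon
    push Not at hcon
    have e1 := hg x₂
    rw [hgcomb x₂, D_self hs₂] at e1
    have e2 : g p = 1 - g q := by linarith
    rw [e2] at e1
    have e3 : g q * D x₁ x₂ ≤ g q * ‖x₂‖ := by linarith
    have e4 : ‖x₂‖ ≤ D x₁ x₂ := (mul_le_mul_left_of_neg hcon).1 e3
    have e5 := hUNI X x₂ hs₂ (D x₁) (D_le x₁) (le_antisymm (D_le x₁ x₂) e4)
    exact hne e5
  have hβ : 0 ≤ g p := by
    by_contra hcon
    push Not at hcon
    have e1 := hg x₁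
    rw [hgcomb x₁, D_self hs₁] at e1
    have e2 : g q = 1 - g p := by linarith
    rw [e2] at e1
    have e3 : g p * D x₂ x₁ ≤ g p * ‖x₁‖ := by linarith
    have e4 : ‖x₁‖ ≤ D x₂ x₁ := (mul_le_mul_left_of_neg hcon).1 e3
    have e5 := hUNI X x₁ hs₁ (D x₂) (D_le x₂) (le_antisymm (D_le x₂ x₁) e4)
    exact hne e5.symm
  apply le_antisymm
  · rw [← hgh, hgcomb]
    have m1 := le_max_left (D x₁ (a • x₁ + b • x₂)) (D x₂ (a • x₁ + b • x₂))
    have m2 := le_max_right (D x₁ (a • x₁ + b • x₂)) (D x₂ (a • x₁ + b • x₂))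
    have m3 := mul_le_mul_of_nonneg_left m1 hα
    have m4 := mul_le_mul_of_nonneg_left m2 hβ
    have m5 : g q * max (D x₁ (a • x₁ + b • x₂)) (D x₂ (a • x₁ + b • x₂)) +
        g p * max (D x₁ (a • x₁ + b • x₂)) (D x₂ (a • x₁ + b • x₂)) =
        max (D x₁ (a • x₁ + b • x₂)) (D x₂ (a • x₁ + b • x₂)) := by
      rw [← add_mul, hsum, one_mul]
    linarith
  · exact max_le (D_le _ _) (D_le _ _)

end Pool.Agent.Q223.KS.A
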