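import Pool.Agent.Q264.KS.Stm3

/-!
# Project KS, lemma K4B
-/

set_option autoImplicit false

namespace Pool.Agent.Q223.KS

open Module Filter Topology Pool.Agent.Q264.KS

universe u

section
variable {X : Type u} [NormedAddCommGroup X] [NormedSpace ℝ X]

theorem D_le (x y : X) : |D x y| ≤ ‖y‖ := by
  have h1 : ‖D x‖ ≤ 1 := by
    have := norm_fderiv_le_of_lipschitz ℝ (f := fun z : X => ‖z‖) (x₀ := x) lipschitzWith_one_norm
    simpa [D] using this
  calc |D x y| = ‖D x y‖ := (Real.norm_eq_abs _).symm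
    _ ≤ ‖D x‖ * ‖y‖ := (D x).le_opNorm y
    _ ≤ 1 * ‖y‖ := mul_le_mul_of_nonneg_right h1 (norm_nonneg _)
    _ = ‖y‖ := one_mul _

theorem D_self {x : X} (h : Sm x) : D x x = ‖x‖ := by
  unfold D
  exact DifferentiableAt.fderiv_norm_self h

theorem not_BJ {x w : X} (h : ¬ BJ x w) : ∃ l : ℝ, ‖x + l • w‖ < ‖x‖ := by
  unfold BJ at h
  push Not at h
  exact h

theorem smooth_in (hAE : S_AE.{u}) [FiniteDimensional ℝ X] (O : Set X) (hO : IsOpen O)
    (hne : O.Nonempty) : ∃ x ∈ O, Sm x := by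
  obtain ⟨x, hx, hs⟩ := hAE X 0 O hO hne
  refine ⟨x, hx, ?_⟩
  have := hs 0
  simpa using this

end

theorem t_K4B : S_K4B.{u} := by
  intro hK4A hS2 hBJD hUNI hHB _ hAE X _ _ _ h3 hP z O hz hO hne hOb hray
  have hnt : Nontrivial X := Module.nontrivial_of_finrank_pos (R := ℝ) (by omega)
  obtain ⟨c, hc⟩ := hne
  obtain ⟨r0, hr0, hr0O⟩ := Metric.isOpen_iff.1 hO c hc
  set r : ℝ := min r0 (1 / 32) with hr
  have hrpos : 0 < r := lt_min hr0 (by norm_num)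
  have hr32 : r ≤ 1 / 32 := min_le_right _ _
  set B : Set X := Metric.ball c r with hB
  have hBo : IsOpen B := Metric.isOpen_ball
  have hBO : B ⊆ O := (Metric.ball_subset_ball (min_le_left _ _)).trans hr0O
  have hcB : c ∈ B := Metric.mem_ball_self hrpos
  have hnorm : ∀ x ∈ B, 15 / 16 ≤ ‖x‖ ∧ ‖x‖ ≤ 17 / 16 := by
    intro x hx
    have h1 := hOb (hBO hx)
    rw [Metric.mem_ball, dist_eq_norm] at h1
    have h2 : ‖z‖ ≤ ‖x‖ + ‖x - z‖ := by
      have := norm_sub_le x (x - z)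
      have h3 : x - (x - z) = z := by abel
      rw [h3] at this
      exact this
    have h3 : ‖x‖ ≤ ‖z‖ + ‖x - z‖ := by
      have := norm_add_le z (x - z)
      have h4 : z + (x - z) = x := by abel
      rw [h4] at this
      exact this
    rw [hz] at h2 h3
    constructor <;> linarith
  have hdist : ∀ x ∈ B, ∀ y ∈ B, ‖x - y‖ ≤ 1 / 16 := by
    intro x hx y hy
    have h1 := dist_triangle_right x y c
    rw [hB, Metric.mem_ball] at hx hy
    rw [← dist_eq_norm]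
    linarith
  obtain ⟨x₁, hx₁, hs₁⟩ := smooth_in hAE B hBo ⟨c, hcB⟩
  -- a vector in the kernel
  obtain ⟨w, hw, hw0⟩ : ∃ w : X, D x₁ w = 0 ∧ w ≠ 0 := by
    have h1 : LinearMap.ker (D x₁ : X →ₗ[ℝ] ℝ) ≠ ⊥ := by
      apply LinearMap.ker_ne_bot_of_finrank_lt
      rw [h3, Module.finrank_self]
      norm_num
    obtain ⟨w, hw, hw0⟩ := Submodule.exists_mem_ne_zero_of_ne_bot h1
    exact ⟨w, by simpa using hw, hw0⟩
  have hflat := fun (O' : Set X) (h1 : IsOpen O') (h2 : O'.Nonempty) =>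
    no_flat (by omega : 2 ≤ finrank ℝ X) hP w hw0 O' h1 h2
  -- the second smooth point
  obtain ⟨x₂, hx₂, hs₂, hne₂⟩ : ∃ x₂ ∈ B, Sm x₂ ∧ D x₂ w ≠ 0 := by
    obtain ⟨y, hy, hyw⟩ := hflat B hBo ⟨c, hcB⟩
    obtain ⟨l, hl⟩ := not_BJ hyw
    have h1 : IsOpen (B ∩ {x : X | ‖x + l • w‖ < ‖x‖}) := by
      apply hBo.inter
      exact isOpen_lt (by fun_prop) (by fun_prop)
    obtain ⟨x₂, hx₂, hs₂⟩ := smooth_in hAE _ h1 ⟨y, hy, hl⟩
    refine ⟨x₂, hx₂.1, hs₂, ?_⟩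
    intro h2
    have h4 := (hBJD X x₂ hs₂ w).2 h2 l
    have h5 : ‖x₂ + l • w‖ < ‖x₂‖ := by simpa using hx₂.2
    linarith
  have hDne : D x₁ ≠ D x₂ := by
    intro h1
    apply hne₂
    rw [← h1]
    exact hw
  have hx₂0 : 0 < ‖x₂‖ := by linarith [(hnorm x₂ hx₂).1]
  have hx₁0 : 0 < ‖x₁‖ := by linarith [(hnorm x₁ hx₁).1]
  -- strict triangle inequality
  have hstrict : ‖x₂ + x₁‖ < ‖x₂‖ + ‖x₁‖ := by
    rcases (norm_add_le x₂ x₁).lt_or_eq with h1 | h1
    · exact h1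
    · exfalso
      have h2 : x₂ + x₁ ≠ 0 := by
        intro h4
        rw [h4, norm_zero] at h1
        linarith
      obtain ⟨g, hg1, hg2⟩ := exists_dual_vector ℝ (x₂ + x₁) (norm_ne_zero_iff.2 h2)
      have hg2' : g (x₂ + x₁) = ‖x₂ + x₁‖ := by simpa using hg2
      have hgle : ∀ y, g y ≤ ‖y‖ := by
        intro y
        calc g y ≤ ‖g y‖ := le_abs_self _
          _ ≤ ‖g‖ * ‖y‖ := g.le_opNorm y
          _ = ‖y‖ := by rw [hg1, one_mul]
      rw [map_add, h1] at hg2'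
      have h5 : g x₂ = ‖x₂‖ := by linarith [hgle x₁, hgle x₂]
      have h6 : g x₁ = ‖x₁‖ := by linarith [hgle x₁, hgle x₂]
      have h7 := hUNI X x₂ hs₂ g hgle h5
      have h8 := hUNI X x₁ hs₁ g hgle h6
      exact hDne (h8.symm.trans h7)
  set c₀ : ℝ := (‖x₂‖ + ‖x₁‖ - ‖x₂ + x₁‖) / 2 with hc₀
  have hc₀pos : 0 < c₀ := by
    rw [hc₀]
    linarith
  -- near x₂
  set W : Set X := B ∩ Metric.ball x₂ (c₀ / 2) with hW
  have hWo : IsOpen W := hBo.inter Metric.isOpen_ball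
  have hx₂W : x₂ ∈ W := ⟨hx₂, Metric.mem_ball_self (by positivity)⟩
  have hbound : ∀ x ∈ W, Sm x → D x x₁ ≤ ‖x₁‖ - c₀ := by
    intro x hx hs
    have h1 := hx.2
    rw [Metric.mem_ball, dist_eq_norm] at h1
    have h2 : D x (x + x₁) ≤ ‖x + x₁‖ := (le_abs_self _).trans (D_le _ _)
    rw [map_add, D_self hs] at h2
    have h4 : ‖x + x₁‖ ≤ ‖x₂ + x₁‖ + ‖x - x₂‖ := by
      have := norm_add_le (x₂ + x₁) (x - x₂)
      have h5 : x₂ + x₁ + (x - x₂) = x + x₁ := by abel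
      rw [h5] at this
      exact this
    have h5 : ‖x₂‖ ≤ ‖x‖ + ‖x - x₂‖ := by
      have := norm_sub_le x (x - x₂)
      have h6 : x - (x - x₂) = x₂ := by abel
      rw [h6] at this
      exact this
    rw [hc₀] at h1 ⊢
    linarith
  set t : ℝ := c₀ / (c₀ + 8) with ht
  have ht0 : 0 < t := by positivity
  have ht1 : t < 1 := by
    rw [ht, div_lt_one (by positivity)]
    linarith
  have htc : 4 * t < (1 - t) * c₀ := by
    have h1 : 1 - t = 8 / (c₀ + 8) := by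
      rw [ht]
      field_simp
      ring
    rw [h1, ht, mul_div_assoc', div_mul_eq_mul_div]
    apply div_lt_div_of_pos_right _ (by positivity)
    linarith
  have hmain : ∀ x ∈ W, Sm x → ‖(1 - t) • x₁ + t • x‖ = D x₁ ((1 - t) • x₁ + t • x) := by
    intro x hx hs
    have hxB : x ∈ B := hx.1
    have hne' : D x₁ ≠ D x := by
      intro h1
      have h2 := hbound x hx hs
      rw [← h1, D_self hs₁] at h2
      linarith
    have hmem : (1 - t) • x₁ + t • x ∈ O := by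
      apply hBO
      exact (convex_ball c r) hx₁ hxB (by linarith) ht0.le (by ring)
    have hd := hdist x₁ hx₁ x hxB
    have h4 := hK4A hS2 hBJD hUNI hHB X h3 hP z O hz hO hray x₁ x (hBO hx₁) (hBO hxB) hs₁ hs
      (by linarith [(hnorm x₁ hx₁).1]) (by linarith [(hnorm x hxB).1]) hne' (1 - t) t
      (by linarith) ht0.le hmem
    rw [h4]
    apply max_eq_left
    have e1 : D x ((1 - t) • x₁ + t • x) = (1 - t) * D x x₁ + t * ‖x‖ := by
      rw [map_add, map_smul, map_smul, D_self hs, smul_eq_mul, smul_eq_mul]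
    have e2 : D x₁ ((1 - t) • x₁ + t • x) = (1 - t) * ‖x₁‖ + t * D x₁ x := by
      rw [map_add, map_smul, map_smul, D_self hs₁, smul_eq_mul, smul_eq_mul]
    rw [e1, e2]
    have h5 := hbound x hx hs
    have h6 := (abs_le.1 (D_le x₁ x)).1
    have h7 := (hnorm x hxB).2
    have h8 : (1 - t) * D x x₁ ≤ (1 - t) * (‖x₁‖ - c₀) :=
      mul_le_mul_of_nonneg_left h5 (by linarith)
    have h9 : t * (-‖x‖) ≤ t * D x₁ x := mul_le_mul_of_nonneg_left h6 ht0.le
    have h10 : t * ‖x‖ ≤ t * 2 := mul_le_mul_of_nonneg_left (by linarith) ht0.le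
    linarith
  -- the open set of the points h
  have hO3 : IsOpen {h : X | t⁻¹ • (h - (1 - t) • x₁) ∈ W} :=
    hWo.preimage (f := fun h : X => t⁻¹ • (h - (1 - t) • x₁)) (by fun_prop)
  have hinv : ∀ x : X, t⁻¹ • ((1 - t) • x₁ + t • x - (1 - t) • x₁) = x := by
    intro x
    rw [add_sub_cancel_left, smul_smul, inv_mul_cancel₀ ht0.ne', one_smul]
  obtain ⟨h, hh, hhw⟩ := hflat _ hO3 ⟨(1 - t) • x₁ + t • x₂, by
    show t⁻¹ • ((1 - t) • x₁ + t • x₂ - (1 - t) • x₁) ∈ W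
    rw [hinv]
    exact hx₂W⟩
  obtain ⟨l, hl⟩ := not_BJ hhw
  have hhW : t⁻¹ • (h - (1 - t) • x₁) ∈ W := hh
  have hback : (1 - t) • x₁ + t • (t⁻¹ • (h - (1 - t) • x₁)) = h := by
    rw [smul_smul, mul_inv_cancel₀ ht0.ne', one_smul]
    abel
  have hO4 : IsOpen (W ∩ {x : X | ‖((1 - t) • x₁ + t • x) + l • w‖ < ‖(1 - t) • x₁ + t • x‖}) := by
    apply hWo.inter
    exact isOpen_lt (by fun_prop) (by fun_prop)
  obtain ⟨x, hx, hs⟩ := smooth_in hAE _ hO4 ⟨t⁻¹ • (h - (1 - t) • x₁), hhW, by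
    show ‖((1 - t) • x₁ + t • (t⁻¹ • (h - (1 - t) • x₁))) + l • w‖ <
      ‖(1 - t) • x₁ + t • (t⁻¹ • (h - (1 - t) • x₁))‖
    rw [hback]
    exact hl⟩
  have h1 := hmain x hx.1 hs
  have h2 : ‖((1 - t) • x₁ + t • x) + l • w‖ < ‖(1 - t) • x₁ + t • x‖ := by simpa using hx.2
  have h4 := (le_abs_self _).trans (D_le x₁ (((1 - t) • x₁ + t • x) + l • w))
  rw [map_add, map_smul, hw, smul_zero, add_zero] at h4
  linarith

end Pool.Agent.Q223.KS
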